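import Pool.Agent.P8H82.FF.Stm
import Pool.Agent.P8H86.JG.Loc

set_option autoImplicit false

/-! # Package LOCX of project FF (helper75) -/

namespace Pool.Agent.P8H75.FF

open NumberField IsDedekindDomain Pool.Agent.P8H82.JG Pool.Agent.P8H82.FF Pool.Agent.P8H86.JG

/-- LOCX -/
theorem locx : S_LOCX := by
  intro K _ _ P e
  have hP := P.ne_bot
  have := P.isPrime
  have hfin := fin_quot hP (e + 2)
  obtain ⟨q, hq⟩ : ∃ q, q = Ideal.absNorm P.asIdeal := ⟨_, rfl⟩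
  have hq0 : 0 < q := by
    rw [hq]; exact Nat.pos_of_ne_zero (by rwa [Ne, Ideal.absNorm_eq_zero_iff])
  have hnP : nP P = q := by rw [nP, hq]
  have hq0' : (q : ℝ) ≠ 0 := by exact_mod_cast hq0.ne'
  have key : ∀ a b : 𝓞 K, ((Ideal.Quotient.mk (P.asIdeal ^ (e + 2)) a,
      Ideal.Quotient.mk (P.asIdeal ^ (e + 2)) b) ∈
      {x : (𝓞 K ⧸ P.asIdeal ^ (e + 2)) × (𝓞 K ⧸ P.asIdeal ^ (e + 2)) | ∃ a b : 𝓞 K,
        x = (Ideal.Quotient.mk _ a, Ideal.Quotient.mk _ b) ∧ Ex P e a b}) ↔ Ex P e a b := by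
    intro a b
    rw [Set.mem_ofPred_eq]
    constructor
    · rintro ⟨a', b', h1, h2⟩
      simp only [Prod.mk.injEq] at h1
      obtain ⟨h1, h1'⟩ := h1
      have i1 : a ∈ P.asIdeal ↔ a' ∈ P.asIdeal := by
        have := mem_JJ (P := P.asIdeal) (n := e + 2) (j := 1) (by omega) (a := a)
        rw [h1, mem_JJ (by omega), pow_one] at this
        exact this.symm
      have i2 : b ∈ P.asIdeal ↔ b' ∈ P.asIdeal := by
        have := mem_JJ (P := P.asIdeal) (n := e + 2) (j := 1) (by omega) (a := b)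
        rw [h1', mem_JJ (by omega), pow_one] at this
        exact this.symm
      have i3 : ∀ j, j ≤ e + 2 → (a * b * (a + b) ∈ P.asIdeal ^ j ↔
          a' * b' * (a' + b') ∈ P.asIdeal ^ j) := by
        intro j hj
        rw [← mem_JJ (P := P.asIdeal) (n := e + 2) hj, ← mem_JJ (P := P.asIdeal) (n := e + 2) hj]
        rw [map_mul, map_mul, map_add, h1, h1', ← map_mul, ← map_add, ← map_mul]
      unfold Ex at h2 ⊢
      rw [i1, i2, i3 e (by omega), i3 (e + 1) (by omega)]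
      exact h2
    · intro h
      exact ⟨a, b, rfl, h⟩
  by_cases he : e = 0
  · have hS : {x : (𝓞 K ⧸ P.asIdeal ^ (e + 2)) × (𝓞 K ⧸ P.asIdeal ^ (e + 2)) | ∃ a b : 𝓞 K,
        x = (Ideal.Quotient.mk _ a, Ideal.Quotient.mk _ b) ∧ Ex P e a b} =
        ((JJ P.asIdeal (e + 2) 1 : Set _) ×ˢ (JJ P.asIdeal (e + 2) 1 : Set _))ᶜ \
          TT P.asIdeal (e + 2) (e + 1) := by
      ext ⟨x, y⟩
      obtain ⟨a, rfl⟩ := Ideal.Quotient.mk_surjective x
      obtain ⟨b, rfl⟩ := Ideal.Quotient.mk_surjective y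
      rw [key a b]
      rw [Set.mem_sdiff, Set.mem_compl_iff, Set.mem_prod, SetLike.mem_coe, SetLike.mem_coe,
        mem_JJ (show 1 ≤ e + 2 by omega), mem_JJ (show 1 ≤ e + 2 by omega)]
      rw [TT, Set.mem_ofPred_eq]
      rw [mem_JJ (show 1 ≤ e + 2 by omega), mem_JJ (show 1 ≤ e + 2 by omega), pow_one]
      rw [← map_mul, ← map_add, ← map_mul, mem_JJ (by omega)]
      unfold Ex
      rw [he, pow_zero, Ideal.one_eq_top]
      simp only [Submodule.mem_top]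
      tauto
    have hsub : TT P.asIdeal (e + 2) (e + 1) ⊆
        ((JJ P.asIdeal (e + 2) 1 : Set (𝓞 K ⧸ P.asIdeal ^ (e + 2))) ×ˢ
          (JJ P.asIdeal (e + 2) 1 : Set _))ᶜ := by
      rintro ⟨x, y⟩ ⟨h1, -⟩ ⟨h2, h3⟩
      exact h1 ⟨h2, h3⟩
    have c1 := Set.ncard_add_ncard_compl
      ((JJ P.asIdeal (e + 2) 1 : Set (𝓞 K ⧸ P.asIdeal ^ (e + 2))) ×ˢ
        (JJ P.asIdeal (e + 2) 1 : Set (𝓞 K ⧸ P.asIdeal ^ (e + 2))))
    rw [Set.ncard_prod, ncard_JJ hP (by omega), Nat.card_prod, card_quot hP, ← hq] at c1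
    have c2 := Set.ncard_sdiff_add_ncard_of_subset hsub
    rw [card_TT hP (by omega) (by omega), ← hq] at c2
    rw [hS, hnP, dx, if_pos he]
    generalize (((JJ P.asIdeal (e + 2) 1 : Set (𝓞 K ⧸ P.asIdeal ^ (e + 2))) ×ˢ
          (JJ P.asIdeal (e + 2) 1 : Set (𝓞 K ⧸ P.asIdeal ^ (e + 2))))ᶜ \
            TT P.asIdeal (e + 2) (e + 1)).ncard = u at c2 ⊢
    generalize (((JJ P.asIdeal (e + 2) 1 : Set (𝓞 K ⧸ P.asIdeal ^ (e + 2))) ×ˢ
          (JJ P.asIdeal (e + 2) 1 : Set (𝓞 K ⧸ P.asIdeal ^ (e + 2))))ᶜ).ncard = v at c1 c2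
    clear hS hsub key hfin
    subst he
    have hq1 : q ^ (2 - 1) ≤ q ^ 2 := Nat.pow_le_pow_right hq0 (by norm_num)
    have c3 : (((q ^ 2 - q ^ (2 - 1) : ℕ)) : ℝ) = (q : ℝ) ^ 2 - q := by
      rw [Nat.cast_sub hq1]; push_cast; ring
    norm_num at c1 c2
    norm_num at c3
    have c1' := congrArg (fun n : ℕ => (n : ℝ)) c1
    have c2' := congrArg (fun n : ℕ => (n : ℝ)) c2
    simp only [Nat.cast_add, Nat.cast_mul, c3, Nat.cast_pow, Nat.cast_ofNat] at c1' c2'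
    have : (1 - 1 / (q : ℝ)) * (1 - 2 / (q : ℝ)) * ((q : ℝ) ^ (0 + 2)) ^ 2 =
        (q : ℝ) ^ 4 - 3 * (q : ℝ) ^ 3 + 2 * (q : ℝ) ^ 2 := by
      field_simp
      ring
    rw [this]
    linarith
  · have hS : {x : (𝓞 K ⧸ P.asIdeal ^ (e + 2)) × (𝓞 K ⧸ P.asIdeal ^ (e + 2)) | ∃ a b : 𝓞 K,
        x = (Ideal.Quotient.mk _ a, Ideal.Quotient.mk _ b) ∧ Ex P e a b} =
        TT P.asIdeal (e + 2) e \ TT P.asIdeal (e + 2) (e + 1) := by
      ext ⟨x, y⟩
      obtain ⟨a, rfl⟩ := Ideal.Quotient.mk_surjective x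
      obtain ⟨b, rfl⟩ := Ideal.Quotient.mk_surjective y
      rw [key a b]
      rw [Set.mem_sdiff]
      rw [TT, TT, Set.mem_ofPred_eq, Set.mem_ofPred_eq]
      simp only [mem_JJ (show 1 ≤ e + 2 by omega), pow_one]
      rw [← map_mul, ← map_add, ← map_mul, mem_JJ (by omega), mem_JJ (by omega)]
      unfold Ex
      tauto
    have hsub : TT P.asIdeal (e + 2) (e + 1) ⊆ TT P.asIdeal (e + 2) e := by
      rintro ⟨x, y⟩ ⟨h1, h2⟩
      refine ⟨h1, ?_⟩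
      have : JJ P.asIdeal (e + 2) (e + 1) ≤ JJ P.asIdeal (e + 2) e :=
        Ideal.map_mono (Ideal.pow_le_pow_right (by omega))
      exact this h2
    have c2 := Set.ncard_sdiff_add_ncard_of_subset hsub
    rw [card_TT hP (by omega) (by omega), card_TT hP (by omega) (by omega), ← hq] at c2
    have hq1 : q ^ (e + 2 - 1) ≤ q ^ (e + 2) := Nat.pow_le_pow_right hq0 (by omega)
    have c3 : (((q ^ (e + 2) - q ^ (e + 2 - 1) : ℕ)) : ℝ) = (q : ℝ) ^ (e + 2) - q ^ (e + 1) := by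
      rw [Nat.cast_sub hq1]; push_cast; rfl
    have c2' := congrArg (fun n : ℕ => (n : ℝ)) c2
    have e1 : e + 2 - (e + 1) = 1 := by omega
    have e2 : e + 2 - e = 2 := by omega
    simp only [Nat.cast_add, Nat.cast_mul, c3, Nat.cast_pow, e1, e2] at c2'
    rw [hS, hnP, dx, if_neg he]
    have : 3 * (1 - 1 / (q : ℝ)) ^ 2 / (q : ℝ) ^ e * ((q : ℝ) ^ (e + 2)) ^ 2 =
        3 * ((q ^ 2 - q) * ((q : ℝ) ^ (e + 2) - q ^ (e + 1))) := by
      field_simp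
      ring
    rw [this]
    push_cast at c2' ⊢
    linarith

end Pool.Agent.P8H75.FF
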